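import Pool.Agent.N642.SA.Raikov

/-!
# Non-meager products of two closed subgroups, one of which acts locally equicontinuously by conjugation
-/

set_option autoImplicit false

namespace Pool.Agent.N642.SA

open Filter Topology Set
open scoped Pointwise

/-- The subgroup `K` of `G` is tame: for some neighbourhood `W` of `1` the conjugations by the elements of `K ∩ W` are
equicontinuous at `1`. -/
def Tame {G : Type*} [Group G] [TopologicalSpace G] (K : Subgroup G) : Prop :=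
  ∃ W ∈ 𝓝 (1 : G), ∀ V ∈ 𝓝 (1 : G), ∃ O ∈ 𝓝 (1 : G), ∀ k ∈ K, k ∈ W → ∀ o ∈ O, k⁻¹ * o * k ∈ V

variable {G : Type*} [Group G] [TopologicalSpace G] [IsTopologicalGroup G]

/-- a tame subgroup has a symmetric such neighbourhood -/
theorem Tame.symm {K : Subgroup G} (h : Tame K) :
    ∃ W ∈ 𝓝 (1 : G), (∀ V ∈ 𝓝 (1 : G), ∃ O ∈ 𝓝 (1 : G), ∀ k ∈ K, k ∈ W → ∀ o ∈ O, k⁻¹ * o * k ∈ V) ∧
      ∀ V ∈ 𝓝 (1 : G), ∃ O ∈ 𝓝 (1 : G), ∀ k ∈ K, k ∈ W → ∀ o ∈ O, k * o * k⁻¹ ∈ V := by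
  obtain ⟨W, hW, h⟩ := h
  refine ⟨W ∩ W⁻¹, inter_mem hW (inv_mem_nhds_one G hW), fun V hV => ?_, fun V hV => ?_⟩
  · obtain ⟨O, hO, h⟩ := h V hV
    exact ⟨O, hO, fun k hk hkW o ho => h k hk hkW.1 o ho⟩
  · obtain ⟨O, hO, h⟩ := h V hV
    refine ⟨O, hO, fun k hk hkW o ho => ?_⟩
    have := h k⁻¹ (K.inv_mem hk) hkW.2 o ho
    rwa [inv_inv] at this

/-- The closure of `(K ∩ W) L` is a neighbourhood of `1` if `K L` is not meager. -/
theorem closure_mem [SecondCountableTopology G] (K L : Subgroup G) (h : ¬ IsMeagre ((K : Set G) * (L : Set G)))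
    {W : Set G} (hW : W ∈ 𝓝 (1 : G)) : closure (((K : Set G) ∩ W) * (L : Set G)) ∈ 𝓝 (1 : G) := by
  classical
  -- a neighbourhood `W₁` with `W₁⁻¹ W₁ ⊆ W`
  have h1 : {p : G × G | p.1⁻¹ * p.2 ∈ W} ∈ 𝓝 ((1 : G), (1 : G)) := by
    have : Tendsto (fun p : G × G => p.1⁻¹ * p.2) (𝓝 ((1 : G), (1 : G))) (𝓝 ((1 : G)⁻¹ * 1)) :=
      (continuous_fst.inv.mul continuous_snd).tendsto _
    rw [inv_one, one_mul] at this
    exact this hW
  rw [nhds_prod_eq, Filter.mem_prod_iff] at h1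
  obtain ⟨A, hA, B, hB, hAB⟩ := h1
  obtain ⟨O, hOAB, hO, h1O⟩ := mem_nhds_iff.mp (inter_mem hA hB)
  have hOO : ∀ a ∈ O, ∀ b ∈ O, a⁻¹ * b ∈ W := by
    intro a ha b hb
    have h2 := hAB (show (a, b) ∈ A ×ˢ B from ⟨(hOAB ha).1, (hOAB hb).2⟩)
    exact h2
  -- countably many translates of `O` by elements of `K` cover `K`
  obtain ⟨T, hTK, hTc, hTU⟩ := TopologicalSpace.isOpen_biUnion_countable (K : Set G) (fun k : G => (fun g => k⁻¹ * g) ⁻¹' O)
    (fun k _ => hO.preimage (continuous_const_mul _))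
  have hcov : (K : Set G) * (L : Set G) ⊆ ⋃ k ∈ T, (fun g => k⁻¹ * g) ⁻¹' (((K : Set G) ∩ O) * (L : Set G)) := by
    rintro _ ⟨k, hk, l, hl, rfl⟩
    have h2 : k ∈ ⋃ k ∈ (K : Set G), (fun g => k⁻¹ * g) ⁻¹' O := by
      rw [mem_iUnion₂]
      exact ⟨k, hk, by simpa using h1O⟩
    rw [← hTU, mem_iUnion₂] at h2
    obtain ⟨t, ht, h3⟩ := h2
    rw [mem_iUnion₂]
    refine ⟨t, ht, t⁻¹ * k, ⟨K.mul_mem (K.inv_mem (hTK ht)) hk, h3⟩, l, hl, ?_⟩
    simp only [mul_assoc]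
  have hS : ¬ IsMeagre (((K : Set G) ∩ O) * (L : Set G)) := by
    intro hm
    apply h
    refine IsMeagre.mono hcov (isMeagre_biUnion hTc fun k _ => ?_)
    exact hm.preimage_of_isOpenMap (continuous_const_mul _) (isOpenMap_mul_left _)
  -- so its closure has an interior point in the set
  have hint : (interior (closure (((K : Set G) ∩ O) * (L : Set G)))).Nonempty := by
    by_contra hcon
    rw [not_nonempty_iff_eq_empty] at hcon
    exact hS (IsNowhereDense.isMeagre hcon)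
  obtain ⟨p, hp⟩ := hint
  obtain ⟨q, hq1, hq2⟩ := mem_closure_iff.mp (interior_subset hp) _ isOpen_interior hp
  obtain ⟨k, ⟨hk, hkO⟩, l, hl, rfl⟩ := hq2
  simp only at hq1
  have h4 : (fun g => k * g * l) ⁻¹' (closure (((K : Set G) ∩ O) * (L : Set G))) ∈ 𝓝 (1 : G) := by
    have h5 : Tendsto (fun g => k * g * l) (𝓝 (1 : G)) (𝓝 (k * 1 * l)) :=
      ((continuous_const_mul k).mul_const l).tendsto 1
    rw [mul_one] at h5
    exact h5 (mem_interior_iff_mem_nhds.mp hq1)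
  refine mem_of_superset h4 ?_
  intro g hg
  rw [mem_preimage] at hg
  have h6 : k⁻¹ * (k * g * l) * l⁻¹ ∈ closure (((K : Set G) ∩ W) * (L : Set G)) := by
    have hc : Continuous (fun x : G => k⁻¹ * x * l⁻¹) := (continuous_const_mul _).mul_const _
    refine map_mem_closure (f := fun x : G => k⁻¹ * x * l⁻¹) hc hg ?_
    rintro _ ⟨a, ⟨ha, haO⟩, b, hb, rfl⟩
    exact ⟨k⁻¹ * a, ⟨K.mul_mem (K.inv_mem hk) ha, hOO k hkO a haO⟩, b * l⁻¹, L.mul_mem hb (L.inv_mem hl), by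
      simp only [mul_assoc]⟩
  have h7 : k⁻¹ * (k * g * l) * l⁻¹ = g := by group
  rwa [h7] at h6

/-- one half of the pairs of indices is enough -/
theorem half (F : ℕ → ℕ → G) (hF : ∀ n m, F m n = (F n m)⁻¹)
    (h : ∀ V ∈ 𝓝 (1 : G), ∃ N, ∀ n m, N ≤ n → n ≤ m → F n m ∈ V) :
    ∀ V ∈ 𝓝 (1 : G), ∃ N, ∀ n m, N ≤ n → N ≤ m → F n m ∈ V := by
  intro V hV
  obtain ⟨N, hN⟩ := h (V ∩ V⁻¹) (inter_mem hV (inv_mem_nhds_one G hV))
  refine ⟨N, fun n m hn hm => ?_⟩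
  rcases le_total n m with hnm | hnm
  · exact (hN n m hn hnm).1
  · have := (hN m n hm hnm).2
    rw [Set.mem_inv, ← hF m n] at this
    exact this

/-- **The main lemma.** -/
theorem mul_mem_nhds [PolishSpace G] (K L : Subgroup G) (hK : IsClosed (K : Set G)) (hL : IsClosed (L : Set G))
    (hT : Tame K) (h : ¬ IsMeagre ((K : Set G) * (L : Set G))) : (K : Set G) * (L : Set G) ∈ 𝓝 (1 : G) := by
  classical
  obtain ⟨W, hW, hT1, hT2⟩ := hT.symm
  obtain ⟨u, hu, hmul⟩ := IsTopologicalGroup.exists_antitone_basis_nhds_one G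
  have humem : ∀ n, u n ∈ 𝓝 (1 : G) := fun n => hu.1.mem_of_mem trivial
  have hucof : ∀ V ∈ 𝓝 (1 : G), ∃ n, u n ⊆ V := fun V hV => by
    obtain ⟨n, -, hn⟩ := hu.1.mem_iff.mp hV
    exact ⟨n, hn⟩
  obtain ⟨m0, hm0⟩ := hucof W hW
  let V : ℕ → Set G := fun n => closure (((K : Set G) ∩ u (m0 + n + 1)) * (L : Set G)) ∩ u n
  have hV : ∀ n, V n ∈ 𝓝 (1 : G) := fun n => inter_mem (closure_mem K L h (humem _)) (humem n)
  refine mem_of_superset (hV 0) fun x₀ hx₀ => ?_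
  let Q : ℕ → G → Prop := fun n a => a ∈ K ∧ ∃ v ∈ V n, ∃ l ∈ L, a⁻¹ * x₀ = v * l
  have step : ∀ (n : ℕ) (a : {a : G // Q n a}), ∃ b : {b : G // Q (n + 1) b}, (a : G)⁻¹ * b ∈ u (m0 + n + 1) := by
    rintro n ⟨a, haK, v, hv, l, hl, hvl⟩
    obtain ⟨O, hO, hOV⟩ := hT1 (V (n + 1)) (hV (n + 1))
    have h1 : (fun g => v * g⁻¹) ⁻¹' O ∈ 𝓝 v := by
      have h2 : Tendsto (fun g => v * g⁻¹) (𝓝 v) (𝓝 (v * v⁻¹)) := (continuous_inv.const_mul v).tendsto v
      rw [mul_inv_cancel] at h2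
      exact h2 hO
    obtain ⟨q, hq1, hq2⟩ := mem_closure_iff_nhds.mp hv.1 _ h1
    obtain ⟨k, ⟨hk, hku⟩, l', hl', rfl⟩ := hq2
    have hkW : k ∈ W := hm0 (hu.2 (by omega) hku)
    have h3 := hOV k hk hkW _ hq1
    refine ⟨⟨a * k, K.mul_mem haK hk, _, h3, l' * l, L.mul_mem hl' hl, ?_⟩, ?_⟩
    · have h4 : (a * k)⁻¹ * x₀ = k⁻¹ * (a⁻¹ * x₀) := by group
      rw [h4, hvl]
      group
    · change a⁻¹ * (a * k) ∈ _
      rw [inv_mul_cancel_left]
      exact hku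
  choose f hf using step
  let s : (n : ℕ) → {a : G // Q n a} := fun n =>
    Nat.rec (motive := fun n => {a : G // Q n a}) ⟨1, K.one_mem, x₀, hx₀, 1, L.one_mem, by simp⟩ (fun n a => f n a) n
  let x : ℕ → G := fun n => (s n).1
  have hx0 : x 0 = 1 := rfl
  have hxs : ∀ n, (x n)⁻¹ * x (n + 1) ∈ u (m0 + n + 1) := fun n => hf n (s n)
  have htail : ∀ j n, (x n)⁻¹ * x (n + j) ∈ u (m0 + n) := by
    intro j
    induction j with
    | zero => intro n; simp only [add_zero, inv_mul_cancel]; exact mem_of_mem_nhds (humem _)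
    | succ j ih =>
      intro n
      have h5 : (x n)⁻¹ * x (n + (j + 1)) = ((x n)⁻¹ * x (n + 1)) * ((x (n + 1))⁻¹ * x (n + 1 + j)) := by
        have : n + (j + 1) = n + 1 + j := by omega
        rw [this]
        group
      rw [h5]
      exact hmul (m0 + n) (mul_mem_mul (hxs n) (by have := ih (n + 1); rwa [← add_assoc] at this))
  have htail' : ∀ n m, n ≤ m → (x n)⁻¹ * x m ∈ u (m0 + n) := by
    intro n m hnm
    obtain ⟨j, rfl⟩ := Nat.exists_eq_add_of_le hnm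
    exact htail j n
  have hxK : ∀ n, x n ∈ K := fun n => (s n).2.1
  have hxW : ∀ n, x n ∈ W := by
    intro n
    have h6 := htail' 0 n (Nat.zero_le n)
    rw [hx0, inv_one, one_mul, add_zero] at h6
    exact hm0 h6
  obtain ⟨z, hz⟩ := raikov x
    (half (fun n m => (x n)⁻¹ * x m) (fun n m => by simp) (fun V hV => by
      obtain ⟨N, hN⟩ := hucof V hV
      exact ⟨N, fun n m hn hnm => hN (hu.2 (by omega) (htail' n m hnm))⟩))
    (half (fun n m => x n * (x m)⁻¹) (fun n m => by simp) (fun V hV => by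
      obtain ⟨O, hO, hOV⟩ := hT2 V hV
      obtain ⟨N, hN⟩ := hucof O⁻¹ (inv_mem_nhds_one G hO)
      refine ⟨N, fun n m hn hnm => ?_⟩
      have h7 : ((x n)⁻¹ * x m)⁻¹ ∈ O := hN (hu.2 (by omega) (htail' n m hnm))
      have h8 := hOV (x n) (hxK n) (hxW n) _ h7
      have h9 : x n * ((x n)⁻¹ * x m)⁻¹ * (x n)⁻¹ = x n * (x m)⁻¹ := by group
      rwa [h9] at h8))
  have hzK : z ∈ K := hK.mem_of_tendsto hz (Eventually.of_forall hxK)
  have hex : ∀ n, ∃ v ∈ V n, ∃ l ∈ L, (x n)⁻¹ * x₀ = v * l := fun n => (s n).2.2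
  choose v hv l hl hvl using hex
  have hv1 : Tendsto v atTop (𝓝 1) := by
    rw [tendsto_def]
    intro U hU
    obtain ⟨N, hN⟩ := hucof U hU
    exact mem_atTop_sets.mpr ⟨N, fun n hn => hN (hu.2 hn (hv n).2)⟩
  have hlz : Tendsto (fun n => (v n)⁻¹ * ((x n)⁻¹ * x₀)) atTop (𝓝 (1⁻¹ * (z⁻¹ * x₀))) :=
    hv1.inv.mul (hz.inv.mul_const x₀)
  have hzL : z⁻¹ * x₀ ∈ L := by
    rw [inv_one, one_mul] at hlz
    refine hL.mem_of_tendsto hlz (Eventually.of_forall fun n => ?_)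
    change (v n)⁻¹ * ((x n)⁻¹ * x₀) ∈ L
    rw [hvl n, inv_mul_cancel_left]
    exact hl n
  exact ⟨z, hzK, z⁻¹ * x₀, hzL, by simp⟩

/-- A product of two closed subgroups of a Polish group, the first one tame, is open if it is not meager. -/
theorem isOpen_mul [PolishSpace G] (K L : Subgroup G) (hK : IsClosed (K : Set G)) (hL : IsClosed (L : Set G))
    (hT : Tame K) (h : ¬ IsMeagre ((K : Set G) * (L : Set G))) : IsOpen ((K : Set G) * (L : Set G)) := by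
  have h1 := mul_mem_nhds K L hK hL hT h
  rw [isOpen_iff_mem_nhds]
  rintro _ ⟨k, hk, l, hl, rfl⟩
  have h2 : (fun g => k⁻¹ * g * l⁻¹) ⁻¹' ((K : Set G) * (L : Set G)) ∈ 𝓝 (k * l) := by
    have h3 : Tendsto (fun g => k⁻¹ * g * l⁻¹) (𝓝 (k * l)) (𝓝 (k⁻¹ * (k * l) * l⁻¹)) :=
      ((continuous_const_mul k⁻¹).mul_const l⁻¹).tendsto _
    have h4 : k⁻¹ * (k * l) * l⁻¹ = 1 := by group
    rw [h4] at h3
    exact h3 h1
  refine mem_of_superset h2 fun g hg => ?_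
  obtain ⟨a, ha, b, hb, hab⟩ := hg
  simp only at hab
  refine ⟨k * a, K.mul_mem hk ha, b * l, L.mul_mem hb hl, ?_⟩
  have : k * a * (b * l) = k * (a * b) * l := by group
  simp only [this, hab]
  group

end Pool.Agent.N642.SA
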