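import Mathlib

/-!
# Two-sided Cauchy sequences in Polish groups converge
-/

set_option autoImplicit false

namespace Pool.Agent.N642.SA

open Filter Topology Set

/-- A sequence of a Polish group that is Cauchy for both one-sided uniformities converges. -/
theorem raikov {G : Type*} [Group G] [TopologicalSpace G] [IsTopologicalGroup G] [PolishSpace G]
    (x : ℕ → G)
    (hl : ∀ V ∈ 𝓝 (1 : G), ∃ N, ∀ n m, N ≤ n → N ≤ m → (x n)⁻¹ * x m ∈ V)
    (hr : ∀ V ∈ 𝓝 (1 : G), ∃ N, ∀ n m, N ≤ n → N ≤ m → x n * (x m)⁻¹ ∈ V) :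
    ∃ z : G, Tendsto x atTop (𝓝 z) := by
  letI := TopologicalSpace.upgradeIsCompletelyMetrizable G
  -- the open sets
  let A : ℕ → Set G := fun k => {y | ∃ N : ℕ, ∃ O : Set G, IsOpen O ∧ y ∈ O ∧ ∀ z ∈ O, ∀ n m, N ≤ n → N ≤ m →
    dist (x n * z) (x m * z) ≤ 1 / ((k : ℝ) + 1)}
  have hAo : ∀ k, IsOpen (A k) := by
    intro k
    rw [isOpen_iff_forall_mem_open]
    rintro y ⟨N, O, hO, hy, h⟩
    exact ⟨O, fun z hz => ⟨N, O, hO, hz, h⟩, hO, hy⟩
  have hAd : ∀ k, Dense (A k) := by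
    intro k
    rw [dense_iff_inter_open]
    rintro U hU ⟨y₀, hy₀⟩
    -- V y₀ ⊆ U
    have h1 : {v : G | v * y₀ ∈ U} ∈ 𝓝 (1 : G) := by
      have : Tendsto (fun v : G => v * y₀) (𝓝 1) (𝓝 (1 * y₀)) := (continuous_mul_const y₀).tendsto 1
      rw [one_mul] at this
      exact this (hU.mem_nhds hy₀)
    obtain ⟨M, hM⟩ := hl _ h1
    set w : G := x M * y₀ with hw
    have hε : (0 : ℝ) < 1 / ((k : ℝ) + 1) / 2 := by positivity
    have h2 : {p : G × G | p.1 * p.2 ∈ Metric.ball w (1 / ((k : ℝ) + 1) / 2)} ∈ 𝓝 ((1 : G), w) := by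
      have : Tendsto (fun p : G × G => p.1 * p.2) (𝓝 ((1 : G), w)) (𝓝 (1 * w)) :=
        (continuous_mul (M := G)).tendsto (1, w)
      rw [one_mul] at this
      exact this (Metric.ball_mem_nhds w hε)
    rw [nhds_prod_eq, Filter.mem_prod_iff] at h2
    obtain ⟨V', hV', O', hO', hVO⟩ := h2
    obtain ⟨O, hOO', hO, hwO⟩ := mem_nhds_iff.mp hO'
    obtain ⟨N, hN⟩ := hr _ hV'
    set N' := max N M with hN'
    refine ⟨(x N')⁻¹ * w, ?_, N', {z | x N' * z ∈ O}, hO.preimage (continuous_const_mul _), ?_, ?_⟩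
    · have := hM N' M (le_max_right _ _) le_rfl
      simp only [mem_setOf_eq] at this
      rw [hw, ← mul_assoc]
      exact this
    · simp only [mem_setOf_eq, mul_inv_cancel_left]
      exact hwO
    · intro z hz n m hn hm
      have key : ∀ n, N' ≤ n → dist (x n * z) w < 1 / ((k : ℝ) + 1) / 2 := by
        intro n hn
        have h3 : (x n * (x N')⁻¹, x N' * z) ∈ V' ×ˢ O' :=
          ⟨hN n N' ((le_max_left _ _).trans hn) (le_max_left _ _), hOO' hz⟩
        have h4 := hVO h3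
        simp only [mem_setOf_eq, Metric.mem_ball] at h4
        rwa [mul_assoc, inv_mul_cancel_left] at h4
      have h5 := dist_triangle_right (x n * z) (x m * z) w
      linarith [key n hn, key m hm]
  have hne : (⋂ k, A k).Nonempty := (dense_iInter_of_isOpen_nat hAo hAd).nonempty
  obtain ⟨y, hy⟩ := hne
  rw [mem_iInter] at hy
  have hC : CauchySeq (fun n => x n * y) := by
    rw [Metric.cauchySeq_iff]
    intro ε hε
    obtain ⟨k, hk⟩ := exists_nat_one_div_lt hε
    obtain ⟨N, O, -, hyO, h⟩ := hy k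
    exact ⟨N, fun n hn m hm => (h y hyO n m hn hm).trans_lt hk⟩
  obtain ⟨z, hz⟩ := cauchySeq_tendsto_of_complete hC
  refine ⟨z * y⁻¹, ?_⟩
  have h6 := hz.mul_const y⁻¹
  simpa using h6

end Pool.Agent.N642.SA
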